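import Pool.Agent.BTR.G0

set_option autoImplicit false

/-! # The functions `β_m`, `g_m` and the constants `∫ g_m(z^k) dz` for a general number `m` of lines -/

open scoped Classical
open Finset

namespace BTG
open BTR

theorem bk_def (m : ℕ) (u : ℝ) : bk m u =
    ((1 - (1 - u) ^ m) + Real.sqrt ((1 - (1 - u) ^ m) ^ 2 + 4 * (u * (1 - u) ^ m))) / 2 := by
  unfold bk
  rw [mul_assoc]

/-- the root is at most `x` -/
theorem root_le {a b x : ℝ} (hb : 0 ≤ b) (hx : 0 < x) (h : a * x + b ≤ x ^ 2) :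
    (a + Real.sqrt (a ^ 2 + 4 * b)) / 2 ≤ x := by
  have h1 : a ≤ x := by
    by_contra hc
    push Not at hc
    nlinarith
  have h2 : Real.sqrt (a ^ 2 + 4 * b) ≤ 2 * x - a := by
    rw [Real.sqrt_le_left (by linarith)]
    nlinarith
  linarith

/-- the root is at least `x` -/
theorem le_root {a b x : ℝ} (h : x ^ 2 ≤ a * x + b) :
    x ≤ (a + Real.sqrt (a ^ 2 + 4 * b)) / 2 := by
  have h2 : 2 * x - a ≤ Real.sqrt (a ^ 2 + 4 * b) := by
    apply Real.le_sqrt_of_sq_le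
    nlinarith
  linarith

variable {m : ℕ} {u v : ℝ}

theorem pow_mem (m : ℕ) (h0 : 0 ≤ u) (h1 : u ≤ 1) : 0 ≤ (1 - u) ^ m ∧ (1 - u) ^ m ≤ 1 :=
  ⟨pow_nonneg (by linarith) _, pow_le_one₀ (by linarith) (by linarith)⟩

theorem bk_nonneg (m : ℕ) (h0 : 0 ≤ u) (h1 : u ≤ 1) : 0 ≤ bk m u := by
  obtain ⟨hv0, hv1⟩ := pow_mem m h0 h1
  rw [bk_def]
  have := Real.sqrt_nonneg ((1 - (1 - u) ^ m) ^ 2 + 4 * (u * (1 - u) ^ m))
  linarith

/-- the defining equation -/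
theorem bk_sq (m : ℕ) (h0 : 0 ≤ u) (h1 : u ≤ 1) :
    bk m u ^ 2 = (1 - (1 - u) ^ m) * bk m u + u * (1 - u) ^ m := by
  obtain ⟨hv0, hv1⟩ := pow_mem m h0 h1
  have h2 := Real.sq_sqrt (show 0 ≤ (1 - (1 - u) ^ m) ^ 2 + 4 * (u * (1 - u) ^ m) by positivity)
  have h3 : Real.sqrt ((1 - (1 - u) ^ m) ^ 2 + 4 * (u * (1 - u) ^ m)) =
      2 * bk m u - (1 - (1 - u) ^ m) := by
    rw [bk_def]; ring
  rw [h3] at h2
  nlinarith

theorem bk_le {x : ℝ} (h0 : 0 ≤ u) (h1 : u ≤ 1) (hx : 0 < x)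
    (h : (1 - (1 - u) ^ m) * x + u * (1 - u) ^ m ≤ x ^ 2) : bk m u ≤ x := by
  obtain ⟨hv0, hv1⟩ := pow_mem m h0 h1
  rw [bk_def]
  exact root_le (mul_nonneg h0 hv0) hx h

theorem le_bk_of {x : ℝ} (h : x ^ 2 ≤ (1 - (1 - u) ^ m) * x + u * (1 - u) ^ m) :
    x ≤ bk m u := by
  rw [bk_def]
  exact le_root h

theorem le_bk (m : ℕ) (h0 : 0 ≤ u) (h1 : u ≤ 1) : u ≤ bk m u := by
  apply le_bk_of
  nlinarith

theorem one_sub_pow_le_bk (m : ℕ) (h0 : 0 ≤ u) (h1 : u ≤ 1) : 1 - (1 - u) ^ m ≤ bk m u := by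
  obtain ⟨hv0, hv1⟩ := pow_mem m h0 h1
  apply le_bk_of
  nlinarith [mul_nonneg h0 hv0]

theorem bk_pos (m : ℕ) (h0 : 0 < u) (h1 : u ≤ 1) : 0 < bk m u :=
  lt_of_lt_of_le h0 (le_bk m h0.le h1)

theorem bk_le_one (m : ℕ) (h0 : 0 ≤ u) (h1 : u ≤ 1) : bk m u ≤ 1 := by
  obtain ⟨hv0, hv1⟩ := pow_mem m h0 h1
  apply bk_le h0 h1 one_pos
  nlinarith [mul_nonneg (sub_nonneg.2 h1) hv0]

theorem bk_lt_one (m : ℕ) (h0 : 0 ≤ u) (h1 : u < 1) : bk m u < 1 := by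
  refine lt_of_le_of_ne (bk_le_one m h0 h1.le) fun h => ?_
  have h2 := bk_sq m h0 h1.le
  rw [h] at h2
  have hv : 0 < (1 - u) ^ m := pow_pos (by linarith) _
  nlinarith [mul_pos hv (sub_pos.2 h1)]

theorem bk_one (m : ℕ) : bk m 1 = 1 := by
  apply le_antisymm (bk_le_one m zero_le_one le_rfl)
  exact le_bk m zero_le_one le_rfl

theorem sqrt_le_bk (m : ℕ) (h0 : 0 ≤ u) (h1 : u ≤ 1) : Real.sqrt u ≤ bk m u := by
  obtain ⟨hv0, hv1⟩ := pow_mem m h0 h1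
  apply le_bk_of
  have hs := Real.sq_sqrt h0
  have hs0 := Real.sqrt_nonneg u
  have hs1 : Real.sqrt u ≤ 1 := Real.sqrt_le_one.2 h1
  have hus : u ≤ Real.sqrt u := by nlinarith
  rw [hs]
  nlinarith [mul_nonneg (sub_nonneg.2 hv1) (sub_nonneg.2 hus)]

/-- an upper bound -/
theorem bk_up (m : ℕ) (h0 : 0 < u) (h1 : u ≤ 1) : bk m u ≤ m * u + Real.sqrt u := by
  obtain ⟨hv0, hv1⟩ := pow_mem m h0.le h1
  have hs := Real.sq_sqrt h0.le
  have hs0 := Real.sqrt_pos.2 h0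
  have hb : 1 - (1 - u) ^ m ≤ m * u := by
    have := one_add_mul_le_pow (a := -u) (by linarith) m
    have e : (1 + -u) ^ m = (1 - u) ^ m := by ring
    rw [e] at this
    linarith
  have hm : (0 : ℝ) ≤ m := Nat.cast_nonneg m
  apply bk_le h0.le h1 (by positivity)
  have h3 : (1 - (1 - u) ^ m) * (m * u + Real.sqrt u) ≤ m * u * (m * u + Real.sqrt u) :=
    mul_le_mul_of_nonneg_right hb (by positivity)
  have h4 : u * (1 - u) ^ m ≤ u := by nlinarith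
  nlinarith [mul_nonneg (mul_nonneg hm h0.le) hs0.le]

theorem bk_mono (m : ℕ) (h0 : 0 ≤ u) (huv : u ≤ v) (h1 : v ≤ 1) : bk m u ≤ bk m v := by
  have hu1 : u ≤ 1 := huv.trans h1
  have hb := bk_sq m h0 hu1
  have hl := le_bk m h0 hu1
  have hp : (1 - v) ^ m ≤ (1 - u) ^ m := pow_le_pow_left₀ (by linarith) (by linarith) m
  have hv0 : 0 ≤ (1 - v) ^ m := pow_nonneg (by linarith) _
  apply le_bk_of
  rw [hb]
  nlinarith [mul_nonneg (sub_nonneg.2 hp) (sub_nonneg.2 hl), mul_nonneg (sub_nonneg.2 huv) hv0]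

/-- `β(u)/u` is decreasing -/
theorem bk_div (m : ℕ) (h0 : 0 < u) (huv : u ≤ v) (h1 : v ≤ 1) :
    bk m v * u ≤ bk m u * v := by
  have hu1 : u ≤ 1 := huv.trans h1
  have hv0 : 0 < v := lt_of_lt_of_le h0 huv
  have hb := bk_sq m h0.le hu1
  have hl := le_bk m h0.le hu1
  have hbp := bk_pos m h0 hu1
  -- convexity of the power
  have hc : (1 - u) ^ m * v ≤ (v - u) + u * (1 - v) ^ m := by
    have h2 := (convexOn_pow (𝕜 := ℝ) m).2 (Set.mem_Ici.2 zero_le_one)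
      (Set.mem_Ici.2 (sub_nonneg.2 h1))
      (div_nonneg (sub_nonneg.2 huv) hv0.le) (div_nonneg h0.le hv0.le)
      (by field_simp; ring)
    simp only [smul_eq_mul, one_pow, mul_one] at h2
    have e : (v - u) / v + u / v * (1 - v) = 1 - u := by field_simp; ring
    rw [e] at h2
    have h3 := mul_le_mul_of_nonneg_right h2 hv0.le
    have e2 : ((v - u) / v + u / v * (1 - v) ^ m) * v = (v - u) + u * (1 - v) ^ m := by
      field_simp
    linarith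
  set c := bk m u / u with hcdef
  have hcu : bk m u = c * u := by rw [hcdef]; field_simp
  have hc1 : 1 ≤ c := by rw [hcdef, le_div_iff₀ h0]; linarith
  have h4 : bk m v ≤ c * v := by
    apply bk_le hv0.le h1 (by positivity)
    -- c² v - (1-(1-v)^m) c - (1-v)^m ≥ 0
    have h5 : c ^ 2 * u = (1 - (1 - u) ^ m) * c + (1 - u) ^ m := by
      rw [hcu] at hb
      have : u * (c ^ 2 * u) = u * ((1 - (1 - u) ^ m) * c + (1 - u) ^ m) := by nlinarith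
      exact mul_left_cancel₀ h0.ne' this
    have h6 : (1 - (1 - v) ^ m) * c + (1 - v) ^ m ≤ c ^ 2 * v := by
      have h7 : u * ((1 - (1 - v) ^ m) * c + (1 - v) ^ m) ≤ u * (c ^ 2 * v) := by
        have e3 : u * (c ^ 2 * v) = v * ((1 - (1 - u) ^ m) * c + (1 - u) ^ m) := by
          rw [← h5]; ring
        rw [e3]
        nlinarith [mul_le_mul_of_nonneg_left hc (sub_nonneg.2 hc1)]
      exact le_of_mul_le_mul_left h7 h0
    nlinarith [mul_le_mul_of_nonneg_left h6 hv0.le]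
  calc bk m v * u ≤ c * v * u := mul_le_mul_of_nonneg_right h4 h0.le
    _ = bk m u * v := by rw [hcu]; ring

/-- `c β(u) ≤ β(c u)` for `0 ≤ c ≤ 1` -/
theorem mul_bk_le (m : ℕ) (h0 : 0 < u) (h1 : u ≤ 1) {c : ℝ} (hc : 0 < c) (hc1 : c ≤ 1) :
    c * bk m u ≤ bk m (c * u) := by
  have h2 := bk_div m (u := c * u) (v := u) (by positivity) (by nlinarith) h1
  have h3 : u * (c * bk m u) ≤ u * bk m (c * u) := by nlinarith
  exact le_of_mul_le_mul_left h3 h0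

/-- `1 - β = (1-u)^{m+1} / (β + (1-u)^m)` -/
theorem one_sub_bk (m : ℕ) (h0 : 0 ≤ u) (h1 : u ≤ 1) :
    (1 - bk m u) * (bk m u + (1 - u) ^ m) = (1 - u) ^ (m + 1) := by
  have h2 := bk_sq m h0 h1
  rw [pow_succ]
  nlinarith

theorem one_sub_bk_ge (m : ℕ) (h0 : 0 ≤ u) (h1 : u ≤ 1) :
    (1 - u) ^ (m + 1) / 2 ≤ 1 - bk m u := by
  obtain ⟨hv0, hv1⟩ := pow_mem m h0 h1
  have h2 := one_sub_bk m h0 h1
  have h3 := bk_le_one m h0 h1
  have h4 := bk_nonneg m h0 h1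
  nlinarith [mul_nonneg (sub_nonneg.2 h3) (show 0 ≤ 2 - (bk m u + (1 - u) ^ m) by linarith)]

/-- the discriminant -/
theorem disc_pos (m : ℕ) (h0 : 0 < u) (h1 : u < 1) : 0 < 2 * bk m u - 1 + (1 - u) ^ m := by
  have hv : 0 < (1 - u) ^ m := pow_pos (by linarith) _
  have h3 : Real.sqrt ((1 - (1 - u) ^ m) ^ 2 + 4 * (u * (1 - u) ^ m)) =
      2 * bk m u - 1 + (1 - u) ^ m := by
    rw [bk_def]; ring
  rw [← h3]
  apply Real.sqrt_pos.2
  have := mul_pos h0 hv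
  nlinarith [sq_nonneg (1 - (1 - u) ^ m)]

end BTG
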