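import Pool.Agent.BTG.G3

set_option autoImplicit false

open scoped Classical
open Finset

namespace BTG
open BTR

variable {m : ℕ}

theorem bz_eq (m : ℕ) (z : ℝ) : bz m z = bk m (1 - Real.exp (-z)) := rfl

theorem exp_neg_gk {z : ℝ} (m : ℕ) (hz : 0 < z) : Real.exp (-gk m z) = bz m z := by
  rw [gk_eq, neg_neg, Real.exp_log (bz_pos m hz)]

theorem gk_pos {z : ℝ} (m : ℕ) (hz : 0 < z) : 0 < gk m z := by
  have h2 := Real.log_neg (bz_pos m hz) (bz_lt_one m hz)
  rw [gk_eq]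
  linarith

theorem gk_nonneg {z : ℝ} (m : ℕ) (hz : 0 < z) : 0 ≤ gk m z := (gk_pos m hz).le

theorem bz_mono {z z' : ℝ} (m : ℕ) (hz : 0 < z) (h : z ≤ z') : bz m z ≤ bz m z' := by
  have h1 : Real.exp (-z') ≤ Real.exp (-z) := Real.exp_le_exp.2 (by linarith)
  exact bk_mono m (u_pos hz).le (by linarith) (u_lt z').le

theorem gk_anti {z z' : ℝ} (m : ℕ) (hz : 0 < z) (h : z ≤ z') : gk m z' ≤ gk m z := by
  have h3 := Real.log_le_log (bz_pos m hz) (bz_mono m hz h)
  rw [gk_eq, gk_eq]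
  linarith

theorem gk_cont (m : ℕ) : ContinuousOn (gk m) (Set.Ioi 0) := fun z hz =>
  (gk_deriv m hz).continuousAt.continuousWithinAt

theorem gk_up {z : ℝ} (m : ℕ) (hz : 0 < z) : gk m z ≤ Real.log ((1 + z) / z) / 2 := by
  have hu := u_pos hz
  have h1 := sqrt_le_bk m hu.le (u_lt z).le
  have h2 := Real.log_le_log (Real.sqrt_pos.2 hu) h1
  rw [Real.log_sqrt hu.le] at h2
  have h3 : z / (1 + z) ≤ 1 - Real.exp (-z) := by
    have h4 : 1 + z ≤ Real.exp z := by
      have := Real.add_one_le_exp z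
      linarith
    have h5 : Real.exp (-z) ≤ 1 / (1 + z) := by
      rw [Real.exp_neg, inv_eq_one_div]
      exact one_div_le_one_div_of_le (by linarith) h4
    have h6 : z / (1 + z) = 1 - 1 / (1 + z) := by
      field_simp; ring
    rw [h6]
    linarith
  have h4 := Real.log_le_log (by positivity) h3
  have h5 : Real.log ((1 + z) / z) = -Real.log (z / (1 + z)) := by
    rw [← Real.log_inv, inv_div]
  rw [h5]
  unfold gk
  linarith

theorem exp_gk_sq {z : ℝ} (m : ℕ) (hz : 0 < z) : Real.exp (gk m z) ^ 2 ≤ (1 + z) / z := by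
  have h := gk_up m hz
  have hp : 0 < (1 + z) / z := by positivity
  rw [← Real.exp_nat_mul]
  calc Real.exp (((2 : ℕ) : ℝ) * gk m z) ≤ Real.exp (Real.log ((1 + z) / z)) :=
        Real.exp_le_exp.2 (by push_cast; linarith)
    _ = (1 + z) / z := Real.exp_log hp

theorem gk_tail {z : ℝ} (m : ℕ) (hz : 1 ≤ z) : gk m z ≤ 2 * Real.exp (-z) := by
  have hz0 : 0 < z := by linarith
  have hu := u_pos hz0
  have h1 := le_bk m hu.le (u_lt z).le
  have h2 := Real.log_le_log hu h1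
  have h3 := Real.one_sub_inv_le_log_of_pos hu
  have he : Real.exp (-z) ≤ 1 / 2 := by
    have h4 : (2 : ℝ) ≤ Real.exp z := by
      have := Real.add_one_le_exp z
      linarith
    rw [Real.exp_neg, inv_eq_one_div]
    exact one_div_le_one_div_of_le (by norm_num) h4
  have hep := Real.exp_pos (-z)
  have h5 : (1 - Real.exp (-z))⁻¹ - 1 ≤ 2 * Real.exp (-z) := by
    rw [sub_le_iff_le_add, inv_eq_one_div, div_le_iff₀ hu]
    nlinarith
  unfold gk
  linarith

theorem exp_m1 (m : ℕ) (z : ℝ) : Real.exp (-((m + 1) * z)) = Real.exp (-z) * vz m z := by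
  unfold vz
  rw [← Real.exp_nat_mul, ← Real.exp_add]
  congr 1
  ring

/-- `g ≥ e^{-(m+1)z}/2` -/
theorem gk_ge {z : ℝ} (m : ℕ) (hz : 0 < z) : Real.exp (-((m + 1) * z)) / 2 ≤ gk m z := by
  have hb := bz_pos m hz
  have h1 := Real.log_le_sub_one_of_pos hb
  have h2 := one_sub_bk_ge m (u_pos hz).le (u_lt z).le
  have e : 1 - (1 - Real.exp (-z)) = Real.exp (-z) := by ring
  rw [e, pow_succ, ← bz_eq] at h2
  rw [exp_m1, gk_eq]
  unfold vz
  linarith

/-- `g ≤ 3 e^{-(m+1)z}` for `z ≥ 1` -/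
theorem gk_tail2 {z : ℝ} (m : ℕ) (hz : 1 ≤ z) : gk m z ≤ 3 * Real.exp (-((m + 1) * z)) := by
  have hz0 : 0 < z := by linarith
  have hu := u_pos hz0
  have hb := bz_pos m hz0
  have hv := vz_pos m z
  have h1 : 1 - Real.exp (-z) ≤ bz m z := le_bk m hu.le (u_lt z).le
  have h3 := Real.one_sub_inv_le_log_of_pos hb
  have he : Real.exp (-z) ≤ 37 / 100 := by
    have h4 : Real.exp (-z) ≤ Real.exp (-1) := Real.exp_le_exp.2 (by linarith)
    have h5 : Real.exp (-1) ≤ 37 / 100 := by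
      rw [Real.exp_neg, inv_eq_one_div, div_le_div_iff₀ (Real.exp_pos 1) (by norm_num)]
      have := Real.exp_one_gt_d9
      linarith
    linarith
  have h6 := one_sub_bz m hz0
  have h7 : (bz m z)⁻¹ - 1 ≤ 3 * Real.exp (-((m + 1) * z)) := by
    rw [exp_m1, ← h6, sub_le_iff_le_add, inv_eq_one_div, div_le_iff₀ hb]
    have h8 : 63 / 100 ≤ bz m z := by linarith
    have h9 := bz_lt_one m hz0
    have h10 : 1 ≤ 3 * ((bz m z + vz m z) * bz m z) := by nlinarith
    nlinarith [mul_nonneg (sub_nonneg.2 h9.le) (sub_nonneg.2 h10)]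
  rw [gk_eq]
  linarith

theorem gk_log {z z' : ℝ} (m : ℕ) (hz : 0 < z) (h : z ≤ z') :
    gk m z - gk m z' ≤ Real.log (z' / z) := by
  have hz' : 0 < z' := lt_of_lt_of_le hz h
  have hu := u_pos hz
  have hu' := u_pos hz'
  have huu : 1 - Real.exp (-z) ≤ 1 - Real.exp (-z') := by
    have h1 : Real.exp (-z') ≤ Real.exp (-z) := Real.exp_le_exp.2 (by linarith)
    linarith
  have h1 := bk_div m hu huu (u_lt z').le
  have hb := bz_pos m hz
  have hb' := bz_pos m hz'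
  rw [← bz_eq, ← bz_eq] at h1
  -- concavity
  have h2 : (1 - Real.exp (-z')) * z ≤ (1 - Real.exp (-z)) * z' := by
    have h3 : Real.exp (-z) - Real.exp (-z') ≤ Real.exp (-z) * (z' - z) := by
      have h4 : Real.exp (-z') = Real.exp (-z) * Real.exp (z - z') := by
        rw [← Real.exp_add]
        congr 1
        ring
      have h5 := Real.add_one_le_exp (z - z')
      have h6 := Real.exp_pos (-z)
      nlinarith
    have h7 : z * Real.exp (-z) ≤ 1 - Real.exp (-z) := by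
      have h8 := Real.add_one_le_exp z
      have h9 : Real.exp (-z) * Real.exp z = 1 := by
        rw [← Real.exp_add, neg_add_cancel, Real.exp_zero]
      have h6 := Real.exp_pos (-z)
      nlinarith
    nlinarith
  have h3 : Real.log (bz m z') - Real.log (bz m z) ≤
      Real.log (1 - Real.exp (-z')) - Real.log (1 - Real.exp (-z)) := by
    have h4 := Real.log_le_log (mul_pos hb' hu) h1
    rw [Real.log_mul hb'.ne' hu.ne', Real.log_mul hb.ne' hu'.ne'] at h4
    linarith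
  have h5 : Real.log (1 - Real.exp (-z')) - Real.log (1 - Real.exp (-z)) ≤
      Real.log z' - Real.log z := by
    have h4 := Real.log_le_log (mul_pos hu' hz) h2
    rw [Real.log_mul hu'.ne' hz.ne', Real.log_mul hu.ne' hz'.ne'] at h4
    linarith
  rw [Real.log_div hz'.ne' hz.ne', gk_eq, gk_eq]
  linarith

theorem gk_ivt {c : ℝ} (m : ℕ) (hc : 0 < c) (hc1 : c ≤ gk m 1) (hc2 : 1 ≤ Real.log (2 / c)) :
    ∃ Z, 1 ≤ Z ∧ Z ≤ Real.log (2 / c) ∧ gk m Z = c := by
  have hcont : ContinuousOn (gk m) (Set.Icc 1 (Real.log (2 / c))) :=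
    (gk_cont m).mono fun x hx => lt_of_lt_of_le one_pos hx.1
  have h1 : gk m (Real.log (2 / c)) ≤ c := by
    have h2 := gk_tail m hc2
    rw [Real.exp_neg, Real.exp_log (by positivity)] at h2
    have h3 : 2 * (2 / c)⁻¹ = c := by
      field_simp
    linarith
  have h2 := intermediate_value_Icc' hc2 hcont
  obtain ⟨Z, hZ, hZc⟩ := h2 ⟨h1, hc1⟩
  exact ⟨Z, hZ.1, hZ.2, hZc⟩

theorem Dm_anti {x y : ℝ} (m : ℕ) (hx : 0 < x) (hxy : x ≤ y) : Dm m y ≤ Dm m x := by
  have h := Dm_incr m hx hxy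
  have hm : (0 : ℝ) ≤ m := Nat.cast_nonneg m
  have h2 : Real.exp (-((m + 1) * y)) ≤ Real.exp (-((m + 1) * x)) := by
    apply Real.exp_le_exp.2
    nlinarith
  linarith

/-- mean value theorem -/
theorem gk_mvt {x y : ℝ} (m : ℕ) (hx : 0 < x) (hxy : x < y) :
    ∃ c ∈ Set.Ioo x y, gk m x - gk m y = (y - x) * Dm m c := by
  obtain ⟨c, hc, he⟩ := exists_hasDerivAt_eq_slope (gk m) (fun z => -Dm m z) hxy
    ((gk_cont m).mono fun t ht => lt_of_lt_of_le hx ht.1)
    (fun t ht => gk_deriv m (hx.trans ht.1))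
  refine ⟨c, hc, ?_⟩
  have h : 0 < y - x := by linarith
  field_simp at he
  linarith

theorem gk_sub_ge_D {x y : ℝ} (m : ℕ) (hx : 0 < x) (hxy : x ≤ y) :
    (y - x) * Dm m y ≤ gk m x - gk m y := by
  rcases hxy.eq_or_lt with h | h
  · rw [h]; simp
  · obtain ⟨c, hc, he⟩ := gk_mvt m hx h
    rw [he]
    exact mul_le_mul_of_nonneg_left (Dm_anti m (hx.trans hc.1) hc.2.le) (by linarith)

theorem gk_sub_le_D {x y : ℝ} (m : ℕ) (hx : 0 < x) (hxy : x ≤ y) :
    gk m x - gk m y ≤ (y - x) * Dm m x := by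
  rcases hxy.eq_or_lt with h | h
  · rw [h]; simp
  · obtain ⟨c, hc, he⟩ := gk_mvt m hx h
    rw [he]
    exact mul_le_mul_of_nonneg_left (Dm_anti m hx hc.1.le) (by linarith)

theorem gk_sub_ge {y1 y2 : ℝ} (m : ℕ) (h0 : 0 < y1) (h : y1 ≤ y2) :
    (y2 - y1) * (Real.exp (-((m + 1) * y2)) / 2) ≤ gk m y1 - gk m y2 :=
  (mul_le_mul_of_nonneg_left (Dm_ge m (lt_of_lt_of_le h0 h)) (by linarith)).trans
    (gk_sub_ge_D m h0 h)

/-- `D ≥ 1/(4z)` for small `z` -/
theorem Dm_small {z : ℝ} (m : ℕ) (hz : 0 < z) (h : 25 * ((m : ℝ) + 1) ^ 2 * z ≤ 1) :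
    1 / (4 * z) ≤ Dm m z := by
  have hm : (0 : ℝ) ≤ m := Nat.cast_nonneg m
  have hu := u_pos hz
  have hu1 := u_lt z
  have hb := bz_pos m hz
  have hb1 := bz_lt_one m hz
  have hv := vz_pos m z
  have hv1 := vz_le_one m hz
  have hd := disc_z m hz
  have hsq := bz_sq m hz
  set u := 1 - Real.exp (-z) with hudef
  have huz : u ≤ z := by
    have := Real.add_one_le_exp (-z)
    linarith
  have hsu : 0 < Real.sqrt u := Real.sqrt_pos.2 hu
  have hsu2 := Real.sq_sqrt hu.le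
  -- (m+1) √u ≤ 1/5
  have h5 : ((m : ℝ) + 1) * Real.sqrt u ≤ 1 / 5 := by
    have h6 : (((m : ℝ) + 1) * Real.sqrt u) ^ 2 ≤ (1 / 5) ^ 2 := by
      rw [mul_pow, hsu2]
      nlinarith [mul_le_mul_of_nonneg_left huz (sq_nonneg ((m : ℝ) + 1))]
    exact le_of_sq_le_sq h6 (by norm_num)
  have h1 : Real.sqrt u ≤ 1 / 5 := by nlinarith [mul_nonneg hm hsu.le]
  have hup : bz m z ≤ m * u + Real.sqrt u := bk_up m hu hu1.le
  have hlo : Real.sqrt u ≤ bz m z := sqrt_le_bk m hu.le hu1.le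
  -- β ≤ (6/5) √u, β² ≤ (36/25) u
  have h2 : (m : ℝ) * u ≤ 1 / 5 * Real.sqrt u := by
    have : (m : ℝ) * u = m * Real.sqrt u * Real.sqrt u := by rw [mul_assoc, ← sq, hsu2]
    rw [this]
    exact mul_le_mul_of_nonneg_right (by nlinarith) hsu.le
  have h3 : bz m z ≤ 6 / 5 * Real.sqrt u := by linarith
  have h4 : bz m z ^ 2 ≤ 36 / 25 * u := by
    have := mul_le_mul h3 h3 hb.le (by positivity)
    nlinarith
  have h7 : bz m z ≤ 6 / 25 := by linarith
  -- the value of D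
  have hnum : 1 ≤ (m + 1) * bz m z + vz m z := by
    have h8 : 1 - m * u ≤ vz m z := by
      have := one_add_mul_le_pow (a := -u) (by linarith) m
      have e : (1 + -u) ^ m = vz m z := by
        unfold vz
        rw [hudef]
        congr 1
        ring
      rw [e] at this
      linarith
    have h9 : u ≤ bz m z := le_bk m hu.le hu1.le
    nlinarith [mul_le_mul_of_nonneg_left h9 hm]
  have hden : bz m z * (2 * bz m z - 1 + vz m z) ≤ 2 * bz m z ^ 2 := by
    nlinarith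
  unfold Dm
  rw [div_le_div_iff₀ (by positivity) (by positivity), one_mul]
  calc bz m z * (2 * bz m z - 1 + vz m z) ≤ 2 * bz m z ^ 2 := hden
    _ ≤ 2 * (36 / 25 * u) := by linarith
    _ ≤ 2 * (36 / 25 * z) := by linarith
    _ ≤ (1 - bz m z) * 1 * (4 * z) := by nlinarith
    _ ≤ (1 - bz m z) * ((m + 1) * bz m z + vz m z) * (4 * z) := by
        apply mul_le_mul_of_nonneg_right _ (by positivity)
        exact mul_le_mul_of_nonneg_left hnum (by linarith)

theorem gk_sub_ge' {y1 y2 : ℝ} (m : ℕ) (h0 : 0 < y1) (h : y1 ≤ y2)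
    (h2 : 25 * ((m : ℝ) + 1) ^ 2 * y2 ≤ 1) :
    (y2 - y1) / (4 * y2) ≤ gk m y1 - gk m y2 := by
  have h3 := Dm_small m (lt_of_lt_of_le h0 h) h2
  have h4 := mul_le_mul_of_nonneg_left h3 (sub_nonneg.2 h)
  have h5 := gk_sub_ge_D m h0 h
  have e : (y2 - y1) / (4 * y2) = (y2 - y1) * (1 / (4 * y2)) := by ring
  rw [e]
  linarith

theorem gk_gain {z k : ℝ} (m : ℕ) (hz : 0 < z) (hz1 : 50 * ((m : ℝ) + 1) ^ 2 * z ≤ 1) (hk : 0 ≤ k)
    (hk1 : k ≤ 1) : k / 8 ≤ gk m z - gk m (z * (1 + k)) := by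
  have h1 : z ≤ z * (1 + k) := by nlinarith
  have hm : (0 : ℝ) < ((m : ℝ) + 1) ^ 2 := by positivity
  have h2 := gk_sub_ge' m hz h1 (by nlinarith [mul_pos hm hz])
  refine le_trans ?_ h2
  rw [div_le_div_iff₀ (by norm_num) (by positivity)]
  nlinarith [mul_nonneg hk hz.le]

theorem gk_gain2 {z k R : ℝ} (m : ℕ) (hz : 0 < z) (hzR : z ≤ R) (hk : 0 ≤ k) (hk1 : k ≤ 1) :
    k * Real.exp (-(2 * (m + 1) * R)) / (100 * (m + 1) ^ 2) ≤ gk m z - gk m (z * (1 + k)) := by
  have hm : (0 : ℝ) ≤ m := Nat.cast_nonneg m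
  have hm2 : (1 : ℝ) ≤ ((m : ℝ) + 1) ^ 2 := by nlinarith
  have hR : 0 < R := lt_of_lt_of_le hz hzR
  have he1 : Real.exp (-(2 * (m + 1) * R)) ≤ 1 := Real.exp_le_one_iff.2 (by
    have : 0 ≤ 2 * ((m : ℝ) + 1) * R := by positivity
    linarith)
  have hep := Real.exp_pos (-(2 * ((m : ℝ) + 1) * R))
  by_cases hs : 50 * ((m : ℝ) + 1) ^ 2 * z ≤ 1
  · have h1 := gk_gain m hz hs hk hk1
    refine le_trans ?_ h1
    rw [div_le_div_iff₀ (by positivity) (by norm_num)]
    have h2 : k * Real.exp (-(2 * (m + 1) * R)) ≤ k * 1 := mul_le_mul_of_nonneg_left he1 hk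
    nlinarith [mul_le_mul_of_nonneg_left hm2 hk]
  · push Not at hs
    have h1 : z ≤ z * (1 + k) := by nlinarith
    have h2 := gk_sub_ge m hz h1
    refine le_trans ?_ h2
    have h3 : z * (1 + k) ≤ 2 * R := by nlinarith
    have h4 : Real.exp (-(2 * (m + 1) * R)) ≤ Real.exp (-((m + 1) * (z * (1 + k)))) := by
      apply Real.exp_le_exp.2
      nlinarith
    rw [div_le_iff₀ (by positivity)]
    have h5 : 1 ≤ 50 * ((m : ℝ) + 1) ^ 2 * z := hs.le
    calc k * Real.exp (-(2 * (m + 1) * R))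
        ≤ k * Real.exp (-((m + 1) * (z * (1 + k)))) := mul_le_mul_of_nonneg_left h4 hk
      _ = k * Real.exp (-((m + 1) * (z * (1 + k)))) * 1 := by ring
      _ ≤ k * Real.exp (-((m + 1) * (z * (1 + k)))) * (50 * ((m : ℝ) + 1) ^ 2 * z) :=
          mul_le_mul_of_nonneg_left h5 (mul_nonneg hk (Real.exp_pos _).le)
      _ = (z * (1 + k) - z) * (Real.exp (-((m + 1) * (z * (1 + k)))) / 2) *
          (100 * (m + 1) ^ 2) := by ring

theorem gk_sub_le {z z' : ℝ} (m : ℕ) (hz : 0 < z) (h : z ≤ z') :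
    gk m z - gk m z' ≤ 2 * ((z' - z) / z) * gk m (z / 2) := by
  have h1 := gk_sub_le_D m hz h
  have h2 := gk_sub_ge_D m (x := z / 2) (y := z) (by linarith) (by linarith)
  have h3 := gk_nonneg m hz
  have h4 : z / 2 * Dm m z ≤ gk m (z / 2) := by
    have e : z - z / 2 = z / 2 := by ring
    rw [e] at h2
    linarith
  have h5 : Dm m z ≤ 2 / z * gk m (z / 2) := by
    rw [div_mul_eq_mul_div, le_div_iff₀ hz]
    linarith
  calc gk m z - gk m z' ≤ (z' - z) * Dm m z := h1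
    _ ≤ (z' - z) * (2 / z * gk m (z / 2)) := mul_le_mul_of_nonneg_left h5 (by linarith)
    _ = 2 * ((z' - z) / z) * gk m (z / 2) := by ring

end BTG
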