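import Pool.Agent.BTG.G1

set_option autoImplicit false

open scoped Classical
open Finset

namespace BTG
open BTR

variable {m : ℕ}

theorem u_pos {z : ℝ} (hz : 0 < z) : 0 < 1 - Real.exp (-z) := by
  have h : Real.exp (-z) < 1 := Real.exp_lt_one_iff.2 (by linarith)
  linarith

theorem u_lt (z : ℝ) : 1 - Real.exp (-z) < 1 := by
  have h := Real.exp_pos (-z)
  linarith

/-- `β` as a function of `z` -/
noncomputable def bz (m : ℕ) (z : ℝ) : ℝ := bk m (1 - Real.exp (-z))

/-- `v = e^{-m z}` -/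
noncomputable def vz (m : ℕ) (z : ℝ) : ℝ := Real.exp (-z) ^ m

/-- `- g'` -/
noncomputable def Dm (m : ℕ) (z : ℝ) : ℝ :=
  (1 - bz m z) * ((m + 1) * bz m z + vz m z) / (bz m z * (2 * bz m z - 1 + vz m z))

/-- `g''` -/
noncomputable def D2 (m : ℕ) (z : ℝ) : ℝ :=
  (1 - bz m z) * (bz m z + vz m z) *
    (((m + 1) * bz m z + vz m z) ^ 2 - vz m z * (m * bz m z + 1 - bz m z) ^ 2) /
    (bz m z ^ 2 * (2 * bz m z - 1 + vz m z) ^ 3)

theorem vz_pos (m : ℕ) (z : ℝ) : 0 < vz m z := pow_pos (Real.exp_pos _) _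

theorem vz_le_one {z : ℝ} (m : ℕ) (hz : 0 < z) : vz m z ≤ 1 := by
  have h := u_pos hz
  exact pow_le_one₀ (Real.exp_pos _).le (by linarith)

theorem bz_pos {z : ℝ} (m : ℕ) (hz : 0 < z) : 0 < bz m z := bk_pos m (u_pos hz) (u_lt z).le

theorem bz_lt_one {z : ℝ} (m : ℕ) (hz : 0 < z) : bz m z < 1 := bk_lt_one m (u_pos hz).le (u_lt z)

theorem bz_sq {z : ℝ} (m : ℕ) (hz : 0 < z) :
    bz m z ^ 2 = (1 - vz m z) * bz m z + (1 - Real.exp (-z)) * vz m z := by
  have h := bk_sq m (u_pos hz).le (u_lt z).le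
  have e : 1 - (1 - Real.exp (-z)) = Real.exp (-z) := by ring
  rw [e] at h
  exact h

theorem disc_z {z : ℝ} (m : ℕ) (hz : 0 < z) : 0 < 2 * bz m z - 1 + vz m z := by
  have h := disc_pos m (u_pos hz) (u_lt z)
  have e : 1 - (1 - Real.exp (-z)) = Real.exp (-z) := by ring
  rw [e] at h
  exact h

/-- `(1-β)(β+v) = e^{-(m+1)z}` -/
theorem one_sub_bz {z : ℝ} (m : ℕ) (hz : 0 < z) :
    (1 - bz m z) * (bz m z + vz m z) = Real.exp (-z) * vz m z := by
  have h := bz_sq m hz
  nlinarith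

theorem vz_deriv (m : ℕ) (z : ℝ) : HasDerivAt (vz m) (-(m * vz m z)) z := by
  have h1 : vz m = fun z => Real.exp (-(m * z)) := by
    funext x
    unfold vz
    rw [← Real.exp_nat_mul]
    congr 1
    ring
  rw [h1]
  have h2 : HasDerivAt (fun x : ℝ => -((m : ℝ) * x)) (-(m : ℝ)) z := by
    have h := ((hasDerivAt_id z).const_mul (m : ℝ)).neg
    rw [mul_one] at h
    exact h
  have h3 := h2.exp
  have e : Real.exp (-(m * z)) * -(m : ℝ) = -(m * Real.exp (-(m * z))) := by ring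
  rwa [e] at h3

/-- the derivative of `β` -/
theorem bz_deriv {z : ℝ} (m : ℕ) (hz : 0 < z) : HasDerivAt (bz m) (bz m z * Dm m z) z := by
  have hu0 := u_pos hz
  have hu1 := u_lt z
  have hv := vz_pos m z
  have hb := bz_pos m hz
  have hd := disc_z m hz
  have hsq := bz_sq m hz
  -- the function
  have hfun : bz m = fun x => ((1 - vz m x) +
      Real.sqrt ((1 - vz m x) ^ 2 + 4 * ((1 - Real.exp (-x)) * vz m x))) / 2 := by
    funext x
    unfold bz vz
    rw [bk_def]
    have e : 1 - (1 - Real.exp (-x)) = Real.exp (-x) := by ring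
    rw [e]
  have hs : Real.sqrt ((1 - vz m z) ^ 2 + 4 * ((1 - Real.exp (-z)) * vz m z)) =
      2 * bz m z - 1 + vz m z := by
    have := congrFun hfun z
    rw [this]; ring
  have hdisc : (1 - vz m z) ^ 2 + 4 * ((1 - Real.exp (-z)) * vz m z) ≠ 0 := by
    have : 0 < (1 - Real.exp (-z)) * vz m z := mul_pos hu0 hv
    positivity
  have hw : HasDerivAt (fun x : ℝ => 1 - Real.exp (-x)) (Real.exp (-z)) z := by
    have ha : HasDerivAt (fun x : ℝ => -x) (-1) z := (hasDerivAt_id z).neg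
    have hb := (ha.exp).const_sub 1
    have e : -(Real.exp (-z) * -1) = Real.exp (-z) := by ring
    rw [e] at hb
    exact hb
  have hv' := vz_deriv m z
  have h1 : HasDerivAt (fun x => 1 - vz m x) (m * vz m z) z := by
    have := hv'.const_sub 1
    rwa [neg_neg] at this
  have h2 := (h1.pow 2).add ((hw.mul hv').const_mul 4)
  have h3 := h2.sqrt (by simpa using hdisc)
  have h4 := (h1.add h3).div_const 2
  have h5 := h4.congr_of_eventuallyEq (Filter.Eventually.of_forall fun x => congrFun hfun x)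
  refine h5.congr_deriv ?_
  simp only [Pi.add_apply, Pi.pow_apply, Pi.mul_apply]
  rw [hs]
  unfold Dm
  have hne : 2 * bz m z - 1 + vz m z ≠ 0 := hd.ne'
  have hbne := hb.ne'
  have hvne := hv.ne'
  have hE : vz m z * Real.exp (-z) = (1 - bz m z) * (bz m z + vz m z) := by
    rw [one_sub_bz m hz]; ring
  field_simp
  norm_num
  linear_combination (4 : ℝ) * hE + 4 * m * hE

theorem gk_eq (m : ℕ) (z : ℝ) : gk m z = -Real.log (bz m z) := rfl

/-- the derivative of `g` is `- D` -/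
theorem gk_deriv {z : ℝ} (m : ℕ) (hz : 0 < z) : HasDerivAt (gk m) (-Dm m z) z := by
  have h := ((bz_deriv m hz).log (bz_pos m hz).ne').neg
  have e : -(bz m z * Dm m z / bz m z) = -Dm m z := by
    rw [mul_div_cancel_left₀ _ (bz_pos m hz).ne']
  rw [e] at h
  exact h

theorem alg_D {b v s μ : ℝ} (hb : b ≠ 0) (hs : s ≠ 0) (hv : v = s + 1 - 2 * b) :
    ((-(b * ((1 - b) * ((μ + 1) * b + v) / (b * s))) * ((μ + 1) * b + v) +
        (1 - b) * ((μ + 1) * (b * ((1 - b) * ((μ + 1) * b + v) / (b * s))) + -(μ * v))) * (b * s) -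
      (1 - b) * ((μ + 1) * b + v) *
        (b * ((1 - b) * ((μ + 1) * b + v) / (b * s)) * s +
          b * (2 * (b * ((1 - b) * ((μ + 1) * b + v) / (b * s))) + -(μ * v)))) / (b * s) ^ 2 =
    -((1 - b) * (b + v) * (((μ + 1) * b + v) ^ 2 - v * (μ * b + 1 - b) ^ 2) / (b ^ 2 * s ^ 3)) := by
  subst hv
  field_simp
  ring

/-- the derivative of `D` is `- g''` -/
theorem Dm_deriv {z : ℝ} (m : ℕ) (hz : 0 < z) : HasDerivAt (Dm m) (-D2 m z) z := by
  have hb := bz_pos m hz
  have hd := disc_z m hz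
  have h1 := bz_deriv m hz
  have h2 := vz_deriv m z
  have hn := (h1.const_sub 1).mul (((h1.const_mul ((m : ℝ) + 1))).add h2)
  have hden := h1.mul (((h1.const_mul 2).sub_const 1).add h2)
  have h3 := hn.div hden (by
    simp only [Pi.mul_apply, Pi.add_apply]
    exact (mul_pos hb hd).ne')
  refine h3.congr_deriv ?_
  simp only [Pi.mul_apply, Pi.add_apply]
  unfold D2
  have hbne := hb.ne'
  have hdne := hd.ne'
  have hD : Dm m z = (1 - bz m z) * ((m + 1) * bz m z + vz m z) /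
      (bz m z * (2 * bz m z - 1 + vz m z)) := rfl
  rw [hD]
  exact alg_D hbne hdne (by ring)

/-- `D ≥ e^{-(m+1)z}/2` -/
theorem Dm_ge {z : ℝ} (m : ℕ) (hz : 0 < z) : Real.exp (-((m + 1) * z)) / 2 ≤ Dm m z := by
  have hb := bz_pos m hz
  have hb1 := bz_lt_one m hz
  have hd := disc_z m hz
  have hv := vz_pos m z
  have hv1 := vz_le_one m hz
  have hm : (0 : ℝ) ≤ m := Nat.cast_nonneg m
  have e : Real.exp (-((m + 1) * z)) = (1 - bz m z) * (bz m z + vz m z) := by
    rw [one_sub_bz m hz]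
    unfold vz
    rw [← Real.exp_nat_mul, ← Real.exp_add]
    congr 1
    ring
  rw [e]
  unfold Dm
  rw [div_le_div_iff₀ (by norm_num) (by positivity)]
  have h1 : bz m z * (2 * bz m z - 1 + vz m z) ≤ 2 := by nlinarith
  have h2 : bz m z + vz m z ≤ (m + 1) * bz m z + vz m z := by nlinarith [mul_nonneg hm hb.le]
  have h3 : 0 ≤ 1 - bz m z := by linarith
  calc (1 - bz m z) * (bz m z + vz m z) * (bz m z * (2 * bz m z - 1 + vz m z))
      ≤ (1 - bz m z) * (bz m z + vz m z) * 2 :=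
        mul_le_mul_of_nonneg_left h1 (mul_nonneg h3 (by positivity))
    _ ≤ (1 - bz m z) * ((m + 1) * bz m z + vz m z) * 2 := by
        apply mul_le_mul_of_nonneg_right _ (by norm_num)
        exact mul_le_mul_of_nonneg_left h2 h3

theorem Dm_pos {z : ℝ} (m : ℕ) (hz : 0 < z) : 0 < Dm m z :=
  lt_of_lt_of_le (by positivity) (Dm_ge m hz)

/-- strong convexity: `g'' ≥ ((2m+1)/4) e^{-(m+1)z}` -/
theorem D2_ge {z : ℝ} (m : ℕ) (hz : 0 < z) :
    (2 * m + 1) / 4 * Real.exp (-((m + 1) * z)) ≤ D2 m z := by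
  have hb := bz_pos m hz
  have hb1 := bz_lt_one m hz
  have hd := disc_z m hz
  have hv := vz_pos m z
  have hv1 := vz_le_one m hz
  have hm : (0 : ℝ) ≤ m := Nat.cast_nonneg m
  have e : Real.exp (-((m + 1) * z)) = (1 - bz m z) * (bz m z + vz m z) := by
    rw [one_sub_bz m hz]
    unfold vz
    rw [← Real.exp_nat_mul, ← Real.exp_add]
    congr 1
    ring
  rw [e]
  unfold D2
  generalize bz m z = b at *
  generalize vz m z = v at *
  set s := 2 * b - 1 + v with hs
  rw [le_div_iff₀ (by positivity)]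
  -- the bracket
  have h1 : s * (2 * m * b + v + 1) ≤ ((m + 1) * b + v) ^ 2 - v * (m * b + 1 - b) ^ 2 := by
    have h2 : v * (m * b + 1 - b) ^ 2 ≤ (m * b + 1 - b) ^ 2 := by
      nlinarith [sq_nonneg (m * b + 1 - b)]
    have h3 : ((m + 1) * b + v) ^ 2 - (m * b + 1 - b) ^ 2 = s * (2 * m * b + v + 1) := by
      rw [hs]; ring
    linarith
  have h4 : s ≤ b + v := by rw [hs]; linarith
  have h5 : s ≤ 2 * b := by rw [hs]; linarith
  have h0 : 0 ≤ (1 - b) * (b + v) := mul_nonneg (by linarith) (by positivity)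
  have h6 : (2 * m + 1) / 4 * (b ^ 2 * s ^ 2) ≤ 2 * m * b + v + 1 := by
    have h7 : s ^ 2 ≤ 4 := by nlinarith
    have h8 : b ^ 2 * s ^ 2 ≤ b * 4 := by
      calc b ^ 2 * s ^ 2 ≤ b * s ^ 2 := by
            apply mul_le_mul_of_nonneg_right _ (sq_nonneg s)
            nlinarith
        _ ≤ b * 4 := mul_le_mul_of_nonneg_left h7 hb.le
    nlinarith [mul_le_mul_of_nonneg_left h8 (show 0 ≤ (2 * (m : ℝ) + 1) / 4 by positivity)]
  calc (2 * m + 1) / 4 * ((1 - b) * (b + v)) * (b ^ 2 * s ^ 3)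
      = (1 - b) * (b + v) * (s * ((2 * m + 1) / 4 * (b ^ 2 * s ^ 2))) := by ring
    _ ≤ (1 - b) * (b + v) * (s * (2 * m * b + v + 1)) := by
        apply mul_le_mul_of_nonneg_left _ h0
        exact mul_le_mul_of_nonneg_left h6 hd.le
    _ ≤ (1 - b) * (b + v) * (((m + 1) * b + v) ^ 2 - v * (m * b + 1 - b) ^ 2) :=
        mul_le_mul_of_nonneg_left h1 h0

theorem D2_pos {z : ℝ} (m : ℕ) (hz : 0 < z) : 0 < D2 m z :=
  lt_of_lt_of_le (by positivity) (D2_ge m hz)

/-- `D` is decreasing, quantitatively -/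
theorem Dm_incr {x y : ℝ} (m : ℕ) (hx : 0 < x) (hxy : x ≤ y) :
    Dm m y + (Real.exp (-((m + 1) * x)) - Real.exp (-((m + 1) * y))) / 4 ≤ Dm m x := by
  have hm : (0 : ℝ) ≤ m := Nat.cast_nonneg m
  have hder : ∀ z ∈ Set.Ioi (0 : ℝ), HasDerivAt
      (fun z => -Dm m z + Real.exp (-((m + 1) * z)) / 4)
      (D2 m z + (Real.exp (-((m + 1) * z)) * -(m + 1)) / 4) z := by
    intro z hz
    have h1 := (Dm_deriv m hz).neg
    rw [neg_neg] at h1
    have h2 : HasDerivAt (fun x : ℝ => -(((m : ℝ) + 1) * x)) (-((m : ℝ) + 1)) z := by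
      have h := ((hasDerivAt_id z).const_mul ((m : ℝ) + 1)).neg
      rw [mul_one] at h
      exact h
    exact h1.add (h2.exp.div_const 4)
  have hmono : MonotoneOn (fun z => -Dm m z + Real.exp (-((m + 1) * z)) / 4) (Set.Ioi 0) := by
    apply monotoneOn_of_deriv_nonneg (convex_Ioi 0)
    · intro z hz
      exact (hder z hz).continuousAt.continuousWithinAt
    · rw [interior_Ioi]
      intro z hz
      exact (hder z hz).differentiableAt.differentiableWithinAt
    · rw [interior_Ioi]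
      intro z hz
      rw [(hder z hz).deriv]
      have h3 := D2_ge m hz
      have h4 := Real.exp_pos (-((m + 1) * z))
      nlinarith [mul_nonneg hm h4.le]
  have h := hmono (Set.mem_Ioi.2 hx) (Set.mem_Ioi.2 (lt_of_lt_of_le hx hxy)) hxy
  simp only at h
  linarith

theorem gk_convex (m : ℕ) : ConvexOn ℝ (Set.Ioi 0) (gk m) := by
  apply MonotoneOn.convexOn_of_deriv (convex_Ioi 0)
  · intro z hz
    exact (gk_deriv m hz).continuousAt.continuousWithinAt
  · rw [interior_Ioi]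
    intro z hz
    exact (gk_deriv m hz).differentiableAt.differentiableWithinAt
  · rw [interior_Ioi]
    intro x hx y hy hxy
    rw [(gk_deriv m hx).deriv, (gk_deriv m hy).deriv]
    have h := Dm_incr m hx hxy
    have hm : (0 : ℝ) ≤ m := Nat.cast_nonneg m
    have h2 : Real.exp (-((m + 1) * y)) ≤ Real.exp (-((m + 1) * x)) := by
      apply Real.exp_le_exp.2
      nlinarith
    linarith

end BTG
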