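import Pool.Agent.BTG.G2

set_option autoImplicit false

open Finset MeasureTheory

namespace BTG
open BTR

theorem g4_meas (m : ℕ) : Measurable (gk m) := by
  unfold gk bk
  fun_prop

theorem g4_measf (m k : ℕ) : Measurable (fun s : ℝ => gk m (s ^ k)) :=
  (g4_meas m).comp (measurable_id.pow_const _)

theorem g4_nonneg (m k : ℕ) {s : ℝ} (hs : 0 < s) : 0 ≤ gk m (s ^ k) := gk_nonneg m (pow_pos hs _)

theorem g4_anti (m k : ℕ) : AntitoneOn (fun s : ℝ => gk m (s ^ k)) (Set.Ioi 0) := by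
  intro a ha b hb hab
  exact gk_anti m (pow_pos ha _) (pow_le_pow_left₀ (le_of_lt ha) hab _)

theorem g4_up (m k : ℕ) {s : ℝ} (hs : 0 < s) (hs1 : s ≤ 1) :
    gk m (s ^ k) ≤ (Real.log 2 - (k : ℝ) * Real.log s) / 2 := by
  have hz : 0 < s ^ k := pow_pos hs _
  have hz1 : s ^ k ≤ 1 := pow_le_one₀ hs.le hs1
  refine (gk_up m hz).trans ?_
  have h1 : Real.log ((1 + s ^ k) / s ^ k) ≤ Real.log (2 / s ^ k) := by
    apply Real.log_le_log (by positivity)
    apply div_le_div_of_nonneg_right _ hz.le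
    linarith
  have h2 : Real.log (2 / s ^ k) = Real.log 2 - (k : ℝ) * Real.log s := by
    rw [Real.log_div (by norm_num) hz.ne', Real.log_pow]
  rw [← h2]
  linarith

theorem g4_tail (m : ℕ) {k : ℕ} (hk : 1 ≤ k) {s : ℝ} (hs : 1 ≤ s) :
    gk m (s ^ k) ≤ 2 * Real.exp (-s) := by
  have hz : s ≤ s ^ k := le_self_pow₀ hs (by omega)
  refine (gk_tail m (hs.trans hz)).trans ?_
  have : Real.exp (-(s ^ k)) ≤ Real.exp (-s) := Real.exp_le_exp.mpr (by linarith)
  linarith

theorem gk_integrable (m : ℕ) {k : ℕ} (hk : 1 ≤ k) :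
    IntegrableOn (fun s : ℝ => gk m (s ^ k)) (Set.Ioi 0) := by
  have hU : Set.Ioi (0 : ℝ) = Set.Ioc 0 1 ∪ Set.Ioi 1 := by
    rw [Set.Ioc_union_Ioi_eq_Ioi zero_le_one]
  rw [hU]
  refine IntegrableOn.union ?_ ?_
  · have hI : IntegrableOn (fun s : ℝ => (Real.log 2 - (k : ℝ) * Real.log s) / 2)
        (Set.Ioc 0 1) := by
      have hlog : IntegrableOn Real.log (Set.Ioc 0 1) := by
        have := (intervalIntegral.intervalIntegrable_log' (a := 0) (b := 1))
        exact (intervalIntegrable_iff_integrableOn_Ioc_of_le zero_le_one).mp this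
      have hc : IntegrableOn (fun _ : ℝ => Real.log 2) (Set.Ioc 0 1) := by
        simp
      exact (hc.sub (hlog.const_mul _)).div_const 2
    refine Integrable.mono' hI (g4_measf m k).aestronglyMeasurable ?_
    refine (ae_restrict_iff' measurableSet_Ioc).mpr (Filter.Eventually.of_forall ?_)
    intro s hs
    rw [Real.norm_eq_abs, abs_of_nonneg (g4_nonneg m k hs.1)]
    exact g4_up m k hs.1 hs.2
  · have hI : IntegrableOn (fun s : ℝ => 2 * Real.exp (-s)) (Set.Ioi 1) :=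
      (integrableOn_exp_neg_Ioi 1).const_mul 2
    refine Integrable.mono' hI (g4_measf m k).aestronglyMeasurable ?_
    refine (ae_restrict_iff' measurableSet_Ioi).mpr (Filter.Eventually.of_forall ?_)
    intro s hs
    have hs1 : (1 : ℝ) < s := hs
    rw [Real.norm_eq_abs, abs_of_nonneg (g4_nonneg m k (by linarith))]
    exact g4_tail m hk hs1.le

theorem lamk_nonneg (m k : ℕ) : 0 ≤ lamk k m := by
  unfold lamk
  exact setIntegral_nonneg measurableSet_Ioi (fun s hs => g4_nonneg m k hs)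

theorem lamk_pos (m : ℕ) {k : ℕ} (hk : 1 ≤ k) : 0 < lamk k m := by
  have h1 : 0 < gk m 1 := gk_pos m one_pos
  have hsub : Set.Ioc (0 : ℝ) 1 ⊆ Set.Ioi 0 := fun s hs => hs.1
  have h2 : ∫ z in Set.Ioc (0 : ℝ) 1, gk m (z ^ k) ≤ lamk k m := by
    unfold lamk
    refine setIntegral_mono_set (gk_integrable m hk) ?_ hsub.eventuallyLE
    refine (ae_restrict_iff' measurableSet_Ioi).mpr (Filter.Eventually.of_forall ?_)
    intro s hs
    exact g4_nonneg m k hs
  have h3 : gk m 1 ≤ ∫ z in Set.Ioc (0 : ℝ) 1, gk m (z ^ k) := by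
    have h4 : ∫ _z in Set.Ioc (0 : ℝ) 1, gk m 1 = gk m 1 := by simp
    rw [← h4]
    refine setIntegral_mono_on (by simp) ((gk_integrable m hk).mono_set hsub)
      measurableSet_Ioc ?_
    intro s hs
    have := g4_anti m k (Set.mem_Ioi.mpr hs.1) (Set.mem_Ioi.mpr one_pos) hs.2
    simpa using this
  linarith

/-- `∫_0^e f ≤ e (log 2 + k (1 - log e))/2` -/
theorem g5_head (m : ℕ) {k : ℕ} (hk : 1 ≤ k) {e : ℝ} (he : 0 < e) (he1 : e ≤ 1) :
    ∫ s in Set.Ioc (0 : ℝ) e, gk m (s ^ k) ≤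
      e * (Real.log 2 + (k : ℝ) * (1 - Real.log e)) / 2 := by
  have hsub : Set.Ioc (0 : ℝ) e ⊆ Set.Ioi 0 := fun s hs => hs.1
  have hlog : IntegrableOn Real.log (Set.Ioc 0 e) := by
    have := (intervalIntegral.intervalIntegrable_log' (a := 0) (b := e))
    exact (intervalIntegrable_iff_integrableOn_Ioc_of_le he.le).mp this
  have hc : IntegrableOn (fun _ : ℝ => Real.log 2) (Set.Ioc 0 e) := by
    simp
  have hI : IntegrableOn (fun s : ℝ => (Real.log 2 - (k : ℝ) * Real.log s) / 2)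
      (Set.Ioc 0 e) := (hc.sub (hlog.const_mul _)).div_const 2
  have h1 : ∫ s in Set.Ioc (0 : ℝ) e, gk m (s ^ k) ≤
      ∫ s in Set.Ioc (0 : ℝ) e, (Real.log 2 - (k : ℝ) * Real.log s) / 2 := by
    refine setIntegral_mono_on ((gk_integrable m hk).mono_set hsub) hI measurableSet_Ioc ?_
    intro s hs
    exact g4_up m k hs.1 (hs.2.trans he1)
  have h2 : ∫ s in Set.Ioc (0 : ℝ) e, (Real.log 2 - (k : ℝ) * Real.log s) / 2 =
      e * (Real.log 2 + (k : ℝ) * (1 - Real.log e)) / 2 := by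
    rw [integral_div, integral_sub hc (hlog.const_mul _), integral_const_mul,
      ← intervalIntegral.integral_of_le he.le, ← intervalIntegral.integral_of_le he.le,
      integral_log]
    simp
    ring
  exact h1.trans h2.le

theorem g5_tail (m : ℕ) {k : ℕ} (hk : 1 ≤ k) {b : ℝ} (hb : 1 ≤ b) :
    ∫ s in Set.Ioi b, gk m (s ^ k) ≤ 2 * Real.exp (-b) := by
  have hsub : Set.Ioi b ⊆ Set.Ioi (0 : ℝ) := fun s hs => by
    have : b < s := hs
    exact Set.mem_Ioi.mpr (by linarith)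
  have h1 : ∫ s in Set.Ioi b, gk m (s ^ k) ≤ ∫ s in Set.Ioi b, 2 * Real.exp (-s) := by
    refine setIntegral_mono_on ((gk_integrable m hk).mono_set hsub)
      ((integrableOn_exp_neg_Ioi b).const_mul 2) measurableSet_Ioi ?_
    intro s hs
    have : b < s := hs
    exact g4_tail m hk (by linarith)
  rw [integral_const_mul, integral_exp_neg_Ioi] at h1
  exact h1

theorem g5_split (m : ℕ) {k : ℕ} (hk : 1 ≤ k) {a b : ℝ} (ha : 0 < a) (hab : a ≤ b) :
    lamk k m = (∫ s in Set.Ioc (0 : ℝ) a, gk m (s ^ k)) + (∫ s in a..b, gk m (s ^ k)) +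
      ∫ s in Set.Ioi b, gk m (s ^ k) := by
  have hI := gk_integrable m hk
  have h1 : lamk k m = (∫ s in Set.Ioc (0 : ℝ) a, gk m (s ^ k)) +
      ∫ s in Set.Ioi a, gk m (s ^ k) := by
    unfold lamk
    rw [← setIntegral_union (Set.Ioc_disjoint_Ioi le_rfl) measurableSet_Ioi
      (hI.mono_set (fun s hs => hs.1))
      (hI.mono_set (fun s hs => Set.mem_Ioi.mpr (ha.trans hs))), Set.Ioc_union_Ioi_eq_Ioi ha.le]
  have h2 : ∫ s in Set.Ioi a, gk m (s ^ k) = (∫ s in Set.Ioc a b, gk m (s ^ k)) +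
      ∫ s in Set.Ioi b, gk m (s ^ k) := by
    rw [← setIntegral_union (Set.Ioc_disjoint_Ioi le_rfl) measurableSet_Ioi
      (hI.mono_set (fun s hs => Set.mem_Ioi.mpr (ha.trans hs.1)))
      (hI.mono_set (fun s hs => Set.mem_Ioi.mpr ((ha.trans_le hab).trans hs))),
      Set.Ioc_union_Ioi_eq_Ioi hab]
  rw [h1, h2, intervalIntegral.integral_of_le hab]
  ring

/-- Riemann sums from below -/
theorem riemann (m : ℕ) {k : ℕ} (hk : 1 ≤ k) {A : ℝ} (hA : 10 ≤ A) {M : ℕ}
    (hM : 2 * A * Real.log A ≤ M) :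
    A * lamk k m - (k + 1) * Real.log A - 1 ≤ ∑ i ∈ Finset.Icc 1 M, gk m (((i : ℝ) / A) ^ k) := by
  have hA0 : 0 < A := by linarith
  have hlogA : 1 ≤ Real.log A := by
    rw [Real.le_log_iff_exp_le hA0]
    have := Real.exp_one_lt_d9
    linarith
  -- the sum is at least the integral
  have hanti : AntitoneOn (fun t : ℝ => gk m ((t / A) ^ k)) (Set.Icc 1 (1 + (M : ℝ))) := by
    intro x hx y hy hxy
    refine g4_anti m k (Set.mem_Ioi.mpr ?_) (Set.mem_Ioi.mpr ?_) ?_
    · exact div_pos (by linarith [hx.1]) hA0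
    · exact div_pos (by linarith [hy.1]) hA0
    · exact div_le_div_of_nonneg_right hxy hA0.le
  have h1 := hanti.integral_le_sum
  have h2 : ∑ i ∈ Finset.range M, gk m (((1 + (i : ℝ)) / A) ^ k) =
      ∑ i ∈ Finset.Icc 1 M, gk m (((i : ℝ) / A) ^ k) := by
    rw [Finset.range_eq_Ico]
    have := Finset.sum_Ico_add' (fun i : ℕ => gk m (((i : ℝ) / A) ^ k)) 0 M 1
    have h3 : Finset.Ico (0 + 1) (M + 1) = Finset.Icc 1 M := by
      ext x; simp
    rw [h3] at this
    rw [← this]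
    apply Finset.sum_congr rfl
    intro i _
    push_cast
    ring_nf
  have h3 : (∫ x in (1 : ℝ)..(1 + (M : ℝ)), gk m ((x / A) ^ k)) =
      A * ∫ s in (1 / A)..((1 + (M : ℝ)) / A), gk m (s ^ k) := by
    rw [intervalIntegral.integral_comp_div (fun s => gk m (s ^ k)) hA0.ne']
    simp
  have hab : 1 / A ≤ (1 + (M : ℝ)) / A := by
    apply div_le_div_of_nonneg_right _ hA0.le
    have : (0 : ℝ) ≤ M := Nat.cast_nonneg _
    linarith
  have h4 := g5_split m hk (a := 1 / A) (b := (1 + (M : ℝ)) / A) (by positivity) hab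
  have h5 := g5_head m hk (e := 1 / A) (by positivity) (by
    rw [div_le_one hA0]; linarith)
  have hb : 2 * Real.log A ≤ (1 + (M : ℝ)) / A := by
    rw [le_div_iff₀ hA0]
    nlinarith
  have h6 := g5_tail m hk (b := (1 + (M : ℝ)) / A) (by linarith)
  have h7 : Real.exp (-((1 + (M : ℝ)) / A)) ≤ 1 / (A * A) := by
    calc Real.exp (-((1 + (M : ℝ)) / A)) ≤ Real.exp (-(2 * Real.log A)) :=
          Real.exp_le_exp.mpr (by linarith)
      _ = 1 / (A * A) := by
          rw [Real.exp_neg, two_mul, Real.exp_add, Real.exp_log hA0, one_div]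
  -- assemble
  have h8 : A * (∫ s in Set.Ioi ((1 + (M : ℝ)) / A), gk m (s ^ k)) ≤ 1 := by
    have : A * (∫ s in Set.Ioi ((1 + (M : ℝ)) / A), gk m (s ^ k)) ≤
        A * (2 * (1 / (A * A))) :=
      mul_le_mul_of_nonneg_left (h6.trans (by linarith)) hA0.le
    refine this.trans ?_
    have h9 : A * (2 * (1 / (A * A))) = 2 / A := by field_simp
    rw [h9, div_le_one hA0]
    linarith
  have h9 : A * (∫ s in Set.Ioc (0 : ℝ) (1 / A), gk m (s ^ k)) ≤ (k + 1) * Real.log A := by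
    have h10 := mul_le_mul_of_nonneg_left h5 hA0.le
    refine h10.trans ?_
    have h11 : A * (1 / A * (Real.log 2 + (k : ℝ) * (1 - Real.log (1 / A))) / 2) =
        (Real.log 2 + (k : ℝ) * (1 + Real.log A)) / 2 := by
      rw [one_div, Real.log_inv]
      field_simp
      ring
    rw [h11]
    have hk2 : (1 : ℝ) ≤ k := by exact_mod_cast hk
    have hl2 : Real.log 2 ≤ 1 := by
      have := Real.log_two_lt_d9
      linarith
    nlinarith
  have h10 : A * lamk k m = A * (∫ s in Set.Ioc (0 : ℝ) (1 / A), gk m (s ^ k)) +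
      A * (∫ s in (1 / A)..((1 + (M : ℝ)) / A), gk m (s ^ k)) +
      A * (∫ s in Set.Ioi ((1 + (M : ℝ)) / A), gk m (s ^ k)) := by
    rw [h4]; ring
  rw [h3, h2] at h1
  linarith

/-- Riemann sums from above: no error term -/
theorem riemann_up (m : ℕ) {k : ℕ} (hk : 1 ≤ k) {A : ℝ} (hA : 0 < A) (M : ℕ) :
    ∑ i ∈ Finset.Icc 1 M, gk m (((i : ℝ) / A) ^ k) ≤ A * lamk k m := by
  have hf : ∀ i : ℕ, 1 ≤ i → gk m (((i : ℝ) / A) ^ k) ≤
      A * ∫ s in Set.Ioc (((i : ℝ) - 1) / A) ((i : ℝ) / A), gk m (s ^ k) := by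
    intro i hi
    have hi' : (1 : ℝ) ≤ i := by exact_mod_cast hi
    have hi0 : 0 ≤ ((i : ℝ) - 1) / A := div_nonneg (by linarith) hA.le
    have hsub : Set.Ioc (((i : ℝ) - 1) / A) ((i : ℝ) / A) ⊆ Set.Ioi 0 := fun s hs =>
      Set.mem_Ioi.2 (lt_of_le_of_lt hi0 hs.1)
    have h1 : ∫ _s in Set.Ioc (((i : ℝ) - 1) / A) ((i : ℝ) / A), gk m (((i : ℝ) / A) ^ k) ≤
        ∫ s in Set.Ioc (((i : ℝ) - 1) / A) ((i : ℝ) / A), gk m (s ^ k) := by
      refine setIntegral_mono_on (by simp) ((gk_integrable m hk).mono_set hsub)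
        measurableSet_Ioc ?_
      intro s hs
      have hs0 := hsub hs
      exact g4_anti m k hs0 (Set.mem_Ioi.2 (lt_of_lt_of_le hs0 hs.2)) hs.2
    have h2 : ∫ _s in Set.Ioc (((i : ℝ) - 1) / A) ((i : ℝ) / A), gk m (((i : ℝ) / A) ^ k) =
        1 / A * gk m (((i : ℝ) / A) ^ k) := by
      rw [setIntegral_const]
      have e : (i : ℝ) / A - ((i : ℝ) - 1) / A = 1 / A := by ring
      simp only [Measure.real, Real.volume_Ioc, e, smul_eq_mul]
      rw [ENNReal.toReal_ofReal (by positivity)]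
    rw [h2] at h1
    have h3 := mul_le_mul_of_nonneg_left h1 hA.le
    have e : A * (1 / A * gk m (((i : ℝ) / A) ^ k)) = gk m (((i : ℝ) / A) ^ k) := by
      field_simp
    linarith
  have hsum : ∀ M : ℕ, ∑ i ∈ Finset.Icc 1 M,
      (∫ s in Set.Ioc (((i : ℝ) - 1) / A) ((i : ℝ) / A), gk m (s ^ k)) =
      ∫ s in Set.Ioc (0 : ℝ) ((M : ℝ) / A), gk m (s ^ k) := by
    intro M
    induction M with
    | zero => simp
    | succ M ih =>
      rw [Finset.sum_Icc_succ_top (by omega), ih]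
      push_cast
      rw [add_sub_cancel_right]
      have h0 : (0 : ℝ) ≤ (M : ℝ) / A := by positivity
      have h1 : (M : ℝ) / A ≤ ((M : ℝ) + 1) / A := div_le_div_of_nonneg_right (by linarith) hA.le
      rw [← setIntegral_union _ measurableSet_Ioc
        ((gk_integrable m hk).mono_set (fun s hs => hs.1))
        ((gk_integrable m hk).mono_set (fun s hs => Set.mem_Ioi.2 (lt_of_le_of_lt h0 hs.1))),
        Set.Ioc_union_Ioc_eq_Ioc h0 h1]
      rw [Set.Ioc_disjoint_Ioc]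
      simp
  calc ∑ i ∈ Finset.Icc 1 M, gk m (((i : ℝ) / A) ^ k)
      ≤ ∑ i ∈ Finset.Icc 1 M,
        A * ∫ s in Set.Ioc (((i : ℝ) - 1) / A) ((i : ℝ) / A), gk m (s ^ k) :=
        Finset.sum_le_sum fun i hi => hf i (Finset.mem_Icc.1 hi).1
    _ = A * ∫ s in Set.Ioc (0 : ℝ) ((M : ℝ) / A), gk m (s ^ k) := by
        rw [← Finset.mul_sum, hsum]
    _ ≤ A * lamk k m := by
        apply mul_le_mul_of_nonneg_left _ hA.le
        unfold lamk
        have hsub : Set.Ioc (0 : ℝ) ((M : ℝ) / A) ⊆ Set.Ioi 0 := fun s hs => hs.1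
        refine setIntegral_mono_set (gk_integrable m hk) ?_ hsub.eventuallyLE
        refine (ae_restrict_iff' measurableSet_Ioi).mpr (Filter.Eventually.of_forall ?_)
        intro s hs
        exact g4_nonneg m k hs

end BTG
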