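import Pool.Agent.BTG.G4
import Pool.Agent.BTP.D0

set_option autoImplicit false

open Finset MeasureTheory

namespace BTG
open BTR

theorem bk_zero_arg (m : ℕ) : bk m 0 = 0 := by
  rw [bk_def]
  simp

/-- `c β(u) ≤ β(c u)` for `0 ≤ c ≤ 1` -/
theorem mul_bk_le' (m : ℕ) {u c : ℝ} (h0 : 0 ≤ u) (h1 : u ≤ 1) (hc : 0 ≤ c) (hc1 : c ≤ 1) :
    c * bk m u ≤ bk m (c * u) := by
  rcases h0.eq_or_lt with h | h
  · rw [← h, mul_zero, bk_zero_arg, mul_zero]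
  rcases hc.eq_or_lt with h' | h'
  · rw [← h', zero_mul, zero_mul, bk_zero_arg]
  exact mul_bk_le m h h1 h' hc1

/-- Riemann sums from above, in the form `∑ g(q x^k) ≤ q^{-1/k} λ` -/
theorem sum_gk_le (m : ℕ) {k : ℕ} (hk : 1 ≤ k) {q : ℝ} (hq : 0 < q) (n : ℕ) :
    ∑ x ∈ Finset.range n, gk m (q * ((x : ℝ) + 1) ^ k) ≤ q ^ (-(1 / k : ℝ)) * lamk k m := by
  have hA : 0 < q ^ (-(1 / k : ℝ)) := Real.rpow_pos_of_pos hq _
  have hAk : (q ^ (-(1 / k : ℝ))) ^ k = q⁻¹ := by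
    rw [← Real.rpow_natCast, ← Real.rpow_mul hq.le]
    have hk0 : (k : ℝ) ≠ 0 := by
      have : k ≠ 0 := by omega
      exact_mod_cast this
    have e : -(1 / (k : ℝ)) * k = -1 := by field_simp
    rw [e, Real.rpow_neg_one]
  have h := riemann_up m hk hA n
  refine le_trans (le_of_eq ?_) h
  rw [Finset.range_eq_Ico]
  have h1 := Finset.sum_Ico_add' (fun i : ℕ => gk m (((i : ℝ) / q ^ (-(1 / k : ℝ))) ^ k)) 0 n 1
  have h3 : Finset.Ico (0 + 1) (n + 1) = Finset.Icc 1 n := by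
    ext x; simp
  rw [h3] at h1
  rw [← h1]
  apply Finset.sum_congr rfl
  intro i _
  rw [div_pow, hAk]
  push_cast
  congr 1
  field_simp

/-! ### The case `m = 1` -/

theorem bk_one_eq (u : ℝ) : bk 1 u = BTP.bet u := by
  rw [bk_def]
  unfold BTP.bet
  have e : (1 - (1 - u) ^ 1) ^ 2 + 4 * (u * (1 - u) ^ 1) = u * (4 - 3 * u) := by ring
  rw [e, pow_one]
  ring

theorem gk_one_eq (z : ℝ) : gk 1 z = BTP.gg z := by
  unfold gk BTP.gg
  rw [bk_one_eq]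

theorem lamk_one_eq (d : ℕ) : lamk (d - 1) 1 = BTP.lam d := by
  unfold lamk BTP.lam
  simp only [gk_one_eq]

end BTG
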